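import Mathlib
import Pool.Agent.H958.RO.Stm
import Pool.Graph.R_seed8.W657.RD.PBas

set_option autoImplicit false

namespace Pool.Agent.H975.RO.Small

open Finset Filter Topology
open Pool.Agent.H958.RO
open Pool.Agent.W830.RD (Om gle Pr Rlz)

noncomputable section

theorem exists_l1 (M κ : ℝ) (hM : 1 ≤ M) (hκ : 0 < κ) : ∃ l : ℕ, 1 ≤ l ∧
    (6 * (l : ℝ) + 1) * (2 / ((l + 1).factorial : ℝ) * M ^ (7 * l)) ≤ κ / 4 := by
  have h := FloorSemiring.tendsto_pow_div_factorial_atTop (7 * M ^ 7)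
  have h2 : ∀ᶠ l : ℕ in atTop, (7 * M ^ 7) ^ l / (l.factorial : ℝ) < κ / 8 :=
    h.eventually_lt_const (by positivity)
  obtain ⟨l, hl1, hl2⟩ := (h2.and (eventually_ge_atTop 1)).exists
  refine ⟨l, hl2, ?_⟩
  have h3 : 6 * (l : ℝ) + 1 ≤ 7 ^ l := by
    have := one_add_mul_le_pow (a := (6 : ℝ)) (by norm_num) l
    norm_num at this
    linarith
  have h4 : (1 : ℝ) / ((l + 1).factorial : ℝ) ≤ 1 / (l.factorial : ℝ) := by
    apply one_div_le_one_div_of_le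
    · exact_mod_cast Nat.factorial_pos l
    · exact_mod_cast Nat.factorial_le (Nat.le_succ l)
  have hfp : (0 : ℝ) < (l.factorial : ℝ) := by exact_mod_cast Nat.factorial_pos l
  have hfp' : (0 : ℝ) < ((l + 1).factorial : ℝ) := by exact_mod_cast Nat.factorial_pos (l + 1)
  have hM0 : 0 ≤ M ^ (7 * l) := by positivity
  calc (6 * (l : ℝ) + 1) * (2 / ((l + 1).factorial : ℝ) * M ^ (7 * l))
      ≤ 7 ^ l * (2 / ((l + 1).factorial : ℝ) * M ^ (7 * l)) := by
        apply mul_le_mul_of_nonneg_right h3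
        positivity
    _ = 2 * (7 ^ l * M ^ (7 * l)) * (1 / ((l + 1).factorial : ℝ)) := by ring
    _ ≤ 2 * (7 ^ l * M ^ (7 * l)) * (1 / (l.factorial : ℝ)) := by
        apply mul_le_mul_of_nonneg_left h4
        positivity
    _ = 2 * ((7 * M ^ 7) ^ l / (l.factorial : ℝ)) := by
        rw [mul_pow, ← pow_mul]
        ring
    _ ≤ κ / 4 := by linarith

theorem card_Inj (n m : ℕ) : ((Inj n m).card : ℝ) ≤ 1 * (n : ℝ) ^ (m + 1) := by
  have h : (Inj n m).card ≤ n ^ (m + 1) := by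
    unfold Inj
    refine (Finset.card_filter_le _ _).trans ?_
    simp
  rw [one_mul]
  exact_mod_cast h

/-- The deterministic step. -/
theorem det (c κ δ : ℝ) (n l1 D : ℕ) (E : Finset (Fin n × Fin n)) (hc : 0 < c)
    (hD : 6 * l1 < D)
    (hl : (6 * (l1 : ℝ) + 1) * (2 / ((l1 + 1).factorial : ℝ) * (max 1 c) ^ (7 * l1)) ≤ κ / 4)
    (hδ : (6 * (l1 : ℝ) + 1) * δ = κ / 4)
    (hD2 : ∑ s ∈ range (6 * l1 + 1), (c ^ (s + 1) + 1) ≤ κ / 4 * ((D - 6 * l1 : ℕ) : ℝ))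
    (hcov : (NN E (2 * l1) D (6 * l1)).card * (D - 6 * l1) ≤
      ∑ s ∈ range (6 * l1 + 1), PC E (Inj n (s + 1)) +
        (D - 6 * l1) * ∑ s ∈ range (6 * l1 + 1), PC E (Mon n s l1))
    (h1 : ∀ s ∈ range (6 * l1 + 1), (PC E (Inj n (s + 1)) : ℝ) ≤ (1 * c ^ (s + 1) + 1) * n)
    (h2 : ∀ s ∈ range (6 * l1 + 1),
      (PC E (Mon n s l1) : ℝ) ≤ (2 / ((l1 + 1).factorial : ℝ) * c ^ (s + l1) + δ) * n)
    (hκ : 0 < κ) :
    ((NN E (2 * l1) D (6 * l1)).card : ℝ) ≤ κ * n := by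
  have hd : 0 < D - 6 * l1 := by omega
  have hdR : (0 : ℝ) < ((D - 6 * l1 : ℕ) : ℝ) := by exact_mod_cast hd
  have hcov' : ((NN E (2 * l1) D (6 * l1)).card : ℝ) * ((D - 6 * l1 : ℕ) : ℝ) ≤
      ∑ s ∈ range (6 * l1 + 1), (PC E (Inj n (s + 1)) : ℝ) +
        ((D - 6 * l1 : ℕ) : ℝ) * ∑ s ∈ range (6 * l1 + 1), (PC E (Mon n s l1) : ℝ) := by
    exact_mod_cast hcov
  have hn : (0 : ℝ) ≤ n := Nat.cast_nonneg n
  have a1 : ∑ s ∈ range (6 * l1 + 1), (PC E (Inj n (s + 1)) : ℝ) ≤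
      κ / 4 * ((D - 6 * l1 : ℕ) : ℝ) * n := by
    calc ∑ s ∈ range (6 * l1 + 1), (PC E (Inj n (s + 1)) : ℝ)
        ≤ ∑ s ∈ range (6 * l1 + 1), (1 * c ^ (s + 1) + 1) * n := Finset.sum_le_sum h1
      _ = (∑ s ∈ range (6 * l1 + 1), (c ^ (s + 1) + 1)) * n := by
          rw [Finset.sum_mul]
          refine Finset.sum_congr rfl fun s _ => ?_
          ring
      _ ≤ κ / 4 * ((D - 6 * l1 : ℕ) : ℝ) * n := mul_le_mul_of_nonneg_right hD2 hn
  have a2 : ∑ s ∈ range (6 * l1 + 1), (PC E (Mon n s l1) : ℝ) ≤ κ / 2 * n := by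
    calc ∑ s ∈ range (6 * l1 + 1), (PC E (Mon n s l1) : ℝ)
        ≤ ∑ s ∈ range (6 * l1 + 1),
            (2 / ((l1 + 1).factorial : ℝ) * c ^ (s + l1) + δ) * n := Finset.sum_le_sum h2
      _ ≤ ∑ _s ∈ range (6 * l1 + 1),
            (2 / ((l1 + 1).factorial : ℝ) * (max 1 c) ^ (7 * l1) + δ) * n := by
          refine Finset.sum_le_sum fun s hs => ?_
          apply mul_le_mul_of_nonneg_right _ hn
          have hs' : s ≤ 6 * l1 := by
            have := mem_range.1 hs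
            omega
          have b1 : c ^ (s + l1) ≤ (max 1 c) ^ (s + l1) :=
            pow_le_pow_left₀ hc.le (le_max_right _ _) _
          have b2 : (max 1 c) ^ (s + l1) ≤ (max 1 c) ^ (7 * l1) :=
            pow_le_pow_right₀ (le_max_left _ _) (by omega)
          have b3 : 2 / ((l1 + 1).factorial : ℝ) * c ^ (s + l1) ≤
              2 / ((l1 + 1).factorial : ℝ) * (max 1 c) ^ (7 * l1) :=
            mul_le_mul_of_nonneg_left (b1.trans b2) (by positivity)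
          linarith
      _ = ((6 * (l1 : ℝ) + 1) * (2 / ((l1 + 1).factorial : ℝ) * (max 1 c) ^ (7 * l1)) +
            (6 * (l1 : ℝ) + 1) * δ) * n := by
          rw [Finset.sum_const, card_range, nsmul_eq_mul]
          push_cast
          ring
      _ ≤ κ / 2 * n := by
          apply mul_le_mul_of_nonneg_right _ hn
          linarith
  have a3 : ((NN E (2 * l1) D (6 * l1)).card : ℝ) * ((D - 6 * l1 : ℕ) : ℝ) ≤
      (3 * κ / 4 * n) * ((D - 6 * l1 : ℕ) : ℝ) := by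
    calc ((NN E (2 * l1) D (6 * l1)).card : ℝ) * ((D - 6 * l1 : ℕ) : ℝ)
        ≤ _ := hcov'
      _ ≤ κ / 4 * ((D - 6 * l1 : ℕ) : ℝ) * n + ((D - 6 * l1 : ℕ) : ℝ) * (κ / 2 * n) :=
          add_le_add a1 (mul_le_mul_of_nonneg_left a2 hdR.le)
      _ = (3 * κ / 4 * n) * ((D - 6 * l1 : ℕ) : ℝ) := by ring
  have a4 := le_of_mul_le_mul_right a3 hdR
  have : 0 ≤ κ * n := by positivity
  linarith

theorem main (h1 : S_LLN) (h2 : S_MONCARD) (h3 : S_COVER) : S_SMALL := by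
  intro c κ hc hκ
  obtain ⟨l1, hl1, hl⟩ := exists_l1 (max 1 c) κ (le_max_left _ _) hκ
  have h6 : (0 : ℝ) < 6 * (l1 : ℝ) + 1 := by positivity
  obtain ⟨δ, hδ, hδ0⟩ : ∃ δ : ℝ, (6 * (l1 : ℝ) + 1) * δ = κ / 4 ∧ 0 < δ :=
    ⟨κ / 4 / (6 * (l1 : ℝ) + 1), by field_simp, by positivity⟩
  obtain ⟨d, hd⟩ := exists_nat_ge ((∑ s ∈ range (6 * l1 + 1), (c ^ (s + 1) + 1)) / (κ / 4))
  have hκ4 : 0 < κ / 4 := by positivity
  have hd2 : ∑ s ∈ range (6 * l1 + 1), (c ^ (s + 1) + 1) ≤ κ / 4 * (d : ℝ) := by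
    rw [div_le_iff₀ hκ4] at hd
    linarith
  set D := 6 * l1 + (d + 1) with hDdef
  have hD : 6 * l1 < D := by omega
  have hDs : D - 6 * l1 = d + 1 := by omega
  have hD2 : ∑ s ∈ range (6 * l1 + 1), (c ^ (s + 1) + 1) ≤ κ / 4 * ((D - 6 * l1 : ℕ) : ℝ) := by
    rw [hDs]
    push_cast
    linarith
  refine ⟨2 * l1, D, by omega, ?_⟩
  have e6 : 3 * (2 * l1) = 6 * l1 := by ring
  rw [e6]
  have t1 : ∀ s ∈ range (6 * l1 + 1), Tendsto (fun n : ℕ => Pr (c / n) n (fun E =>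
      (1 * c ^ (s + 1) + 1) * n < (PC E (Inj n (s + 1)) : ℝ))) atTop (𝓝 0) := by
    intro s _
    refine h1 c 1 1 (s + 1) (fun n => Inj n (s + 1)) hc zero_le_one one_pos ?_ ?_
    · intro n w hw
      exact (mem_filter.1 hw).2
    · intro n
      exact card_Inj n (s + 1)
  have t2 : ∀ s ∈ range (6 * l1 + 1), Tendsto (fun n : ℕ => Pr (c / n) n (fun E =>
      (2 / ((l1 + 1).factorial : ℝ) * c ^ (s + l1) + δ) * n < (PC E (Mon n s l1) : ℝ)))
        atTop (𝓝 0) := by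
    intro s _
    refine h1 c (2 / ((l1 + 1).factorial : ℝ)) δ (s + l1) (fun n => Mon n s l1) hc
      (by positivity) hδ0 ?_ ?_
    · intro n w hw
      exact (mem_filter.1 hw).2.1
    · intro n
      exact h2 n s l1
  have T1 := tendsto_finsetSum (range (6 * l1 + 1)) t1
  have T2 := tendsto_finsetSum (range (6 * l1 + 1)) t2
  have T := T1.add T2
  rw [Finset.sum_const_zero, add_zero] at T
  obtain ⟨n0, hn0⟩ := exists_nat_gt c
  have hev : ∀ᶠ n : ℕ in atTop, n0 ≤ n := eventually_ge_atTop n0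
  refine squeeze_zero' ?_ ?_ T
  · filter_upwards [hev] with n hn
    have hn' : c < n := hn0.trans_le (by exact_mod_cast hn)
    have hnp : (0 : ℝ) < n := hc.trans hn'
    exact (Pool.Agent.W657.RD.PBas.main (c / n) n (by positivity)
      ((div_lt_one hnp).2 hn')).2.1 _
  · filter_upwards [hev] with n hn
    have hn' : c < n := hn0.trans_le (by exact_mod_cast hn)
    have hnp : (0 : ℝ) < n := hc.trans hn'
    obtain ⟨_, _, hmono, hor, _, hun⟩ := Pool.Agent.W657.RD.PBas.main (c / n) n (by positivity)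
      ((div_lt_one hnp).2 hn')
    have m1 : Pr (c / n) n (fun E => κ * n < ((NN E (2 * l1) D (6 * l1)).card : ℝ)) ≤
        Pr (c / n) n (fun E => (∃ s ∈ range (6 * l1 + 1),
          (1 * c ^ (s + 1) + 1) * n < (PC E (Inj n (s + 1)) : ℝ)) ∨
          ∃ s ∈ range (6 * l1 + 1), (2 / ((l1 + 1).factorial : ℝ) * c ^ (s + l1) + δ) * n <
            (PC E (Mon n s l1) : ℝ)) := by
      apply hmono
      intro E hE hlt
      by_contra hcon
      push Not at hcon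
      have := det c κ δ n l1 D E hc hD hl hδ hD2 (h3 n E l1 D (6 * l1) hE) hcon.1 hcon.2 hκ
      linarith
    refine m1.trans ((hor _ _).trans (add_le_add ?_ ?_))
    · exact hun ℕ (range (6 * l1 + 1)) (fun s E =>
        (1 * c ^ (s + 1) + 1) * n < (PC E (Inj n (s + 1)) : ℝ))
    · exact hun ℕ (range (6 * l1 + 1)) (fun s E =>
        (2 / ((l1 + 1).factorial : ℝ) * c ^ (s + l1) + δ) * n < (PC E (Mon n s l1) : ℝ))

end

end Pool.Agent.H975.RO.Small

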